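import Pool.Agent.J6H23.GR.Growth

/-!
# Direct products of groups that attain their minimal growth rate
-/

set_option autoImplicit false

namespace Pool.Agent.Results.MP_f4e6b0_al.DirectProducts

open Pool.Agent.J6H23.GR

/-- Let `G`, `H` be finitely generated groups. Then `ω(G × H) = max (ω(G), ω(H))`. If
`ω(H) < ω(G)`, then `G × H` attains its minimal growth rate if and only if `G` does. If
`ω(G) = ω(H)`, then `G × H` attains its minimal growth rate if and only if both `G` and `H` do.
(`omega` is the limit of the `k`-th roots of `beta`.) -/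
theorem result (G H : Type) [Group G] [Group H] [Group.FG G] [Group.FG H] :
    (∀ S : Set G, S.Finite → Filter.Tendsto (fun k : ℕ => (beta S k : ℝ) ^ (1 / (k : ℝ)))
      Filter.atTop (nhds (omega S))) ∧
    omegaMin (G × H) = max (omegaMin G) (omegaMin H) ∧
    (omegaMin H < omegaMin G → (Attains (G × H) ↔ Attains G)) ∧
    (omegaMin G = omegaMin H → (Attains (G × H) ↔ Attains G ∧ Attains H)) := by
  have hmin := omegaMin_prod G H
  refine ⟨fun S hS => tendsto_omega hS, hmin, ?_, ?_⟩
  · intro hlt
    rw [max_eq_left hlt.le] at hmin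
    constructor
    · rintro ⟨U, hU, h⟩
      exact ⟨_, (fst_le hU).1, le_antisymm (by rw [← hmin, ← h]; exact (fst_le hU).2)
        (omegaMin_le (fst_le hU).1)⟩
    · rintro ⟨S, hS, h⟩
      obtain ⟨T, hT, hT'⟩ := exists_lt_of_omegaMin_lt H hlt
      refine ⟨_, (hS.prod hT).1, le_antisymm ?_ (omegaMin_le (hS.prod hT).1)⟩
      rw [hmin]
      exact le_trans (hS.prod hT).2 (max_le h.le hT'.le)
  · intro heq
    have hmin' : omegaMin (G × H) = omegaMin G := by rw [hmin, ← heq, max_self]
    constructor
    · rintro ⟨U, hU, h⟩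
      refine ⟨⟨_, (fst_le hU).1, le_antisymm ?_ (omegaMin_le (fst_le hU).1)⟩,
        ⟨_, (snd_le hU).1, le_antisymm ?_ (omegaMin_le (snd_le hU).1)⟩⟩
      · rw [← hmin', ← h]; exact (fst_le hU).2
      · rw [← heq, ← hmin', ← h]; exact (snd_le hU).2
    · rintro ⟨⟨S, hS, h⟩, T, hT, h'⟩
      refine ⟨_, (hS.prod hT).1, le_antisymm ?_ (omegaMin_le (hS.prod hT).1)⟩
      rw [hmin']
      exact le_trans (hS.prod hT).2 (max_le h.le (by rw [h', heq]))

end Pool.Agent.Results.MP_f4e6b0_al.DirectProducts
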