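import Pool.Agent.J6H23.GR.Kernel

/-!
# Extensions by normal subgroups of subexponential relative growth
-/

set_option autoImplicit false

namespace Pool.Agent.Results.MP_f4e6b0_al.SubexponentialKernels

open Pool.Agent.J6H23.GR

/-- Let `N` be a normal subgroup of a finitely generated group `G` of subexponential relative
growth in `G`. Then `ω(G, S) = ω(G/N, image of S)` for all finite generating sets `S` of `G`,
`ω(G) = ω(G/N)`, and `G` attains its minimal growth rate if and only if `G/N` does. -/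
theorem result (G : Type) [Group G] [Group.FG G] (N : Subgroup G) [N.Normal] (hN : Subexp N) :
    (∀ S : Set G, IsGen S → Filter.Tendsto (fun k : ℕ => (beta S k : ℝ) ^ (1 / (k : ℝ)))
      Filter.atTop (nhds (omega S))) ∧
    (∀ S : Set G, IsGen S → omega S = omega (QuotientGroup.mk' N '' S)) ∧
    omegaMin G = omegaMin (G ⧸ N) ∧ (Attains G ↔ Attains (G ⧸ N)) := by
  have hsurj : Function.Surjective (QuotientGroup.mk' N) := QuotientGroup.mk'_surjective N
  have heq : ∀ S : Set G, IsGen S → omega S = omega (QuotientGroup.mk' N '' S) := fun S hS =>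
    le_antisymm (omega_le_quot hN hS) (hS.map _ hsurj).2
  have hlift : ∀ T : Set (G ⧸ N), IsGen T → ∃ S : Set G, IsGen S ∧ omega S ≤ omega T := by
    intro T hT
    obtain ⟨S, hS, hST⟩ := exists_lift hT
    exact ⟨S, hS, le_trans (omega_le_quot hN hS) (omega_mono_insert hT.1 hST)⟩
  have hmin : omegaMin G = omegaMin (G ⧸ N) := by
    obtain ⟨x, S₀, hS₀, -⟩ := nonempty_set G
    apply le_antisymm
    · refine le_csInf ⟨_, _, (hS₀.map _ hsurj).1, rfl⟩ ?_
      rintro y ⟨T, hT, rfl⟩
      obtain ⟨S, hS, hST⟩ := hlift T hT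
      exact le_trans (omegaMin_le hS) hST
    · refine le_csInf ⟨_, S₀, hS₀, rfl⟩ ?_
      rintro y ⟨S, hS, rfl⟩
      exact le_trans (omegaMin_le (hS.map _ hsurj).1) (hS.map _ hsurj).2
  refine ⟨fun S hS => tendsto_omega hS.1, heq, hmin, ?_, ?_⟩
  · rintro ⟨S, hS, h⟩
    exact ⟨_, (hS.map _ hsurj).1, by rw [← heq S hS, h, hmin]⟩
  · rintro ⟨T, hT, h⟩
    obtain ⟨S, hS, hST⟩ := hlift T hT
    exact ⟨S, hS, le_antisymm (by rw [hmin, ← h]; exact hST) (omegaMin_le hS)⟩

end Pool.Agent.Results.MP_f4e6b0_al.SubexponentialKernels
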